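import Pool.Agent.Q235.Cvx.Cycle

/-!
# The configurations `conf m` do not embed in each other
-/

namespace Pool.Agent.Q235.Cvx

open Pool.Agent.Q235.Wqo

/-- middle index of the `t`-th transversal -/
def be (m t : ℕ) : ℕ := if t % 2 = 0 then sh m (t / 2) else m + sh m (t / 2)

/-- The `t`-th collinear transversal triple. -/
noncomputable def Tr (m t : ℕ) : Finset (ℝ × ℝ) := {pa m ((t + 1) / 2), pb (be m t), pc m (t / 2)}

theorem mem_Tr {m t : ℕ} {p : ℝ × ℝ} :
    p ∈ Tr m t ↔ p = pa m ((t + 1) / 2) ∨ p = pb (be m t) ∨ p = pc m (t / 2) := by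
  unfold Tr
  simp

theorem pa_inj {m i i' : ℕ} (hm : 0 < m) (h : pa m i = pa m i') : i = i' := by
  have h1 : (2 * m * i : ℝ) = 2 * m * i' := congrArg Prod.fst h
  have h2 : (0 : ℝ) < m := by exact_mod_cast hm
  have h3 : (i : ℝ) = i' := by
    have : (2 * m : ℝ) ≠ 0 := by positivity
    exact mul_left_cancel₀ this h1
  exact_mod_cast h3

theorem pb_inj {w w' : ℕ} (h : pb w = pb w') : w = w' := by
  have h1 : (w : ℝ) = w' := congrArg Prod.fst h
  exact_mod_cast h1

theorem pc_inj {m j j' : ℕ} (hm : 2 ≤ m) (h : pc m j = pc m j') : j = j' := by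
  have h1 : (2 * sh m j - 2 * m * j : ℝ) = 2 * sh m j' - 2 * m * j' := congrArg Prod.fst h
  have a1 : (sh m j : ℝ) + 1 ≤ m := by exact_mod_cast sh_lt m j hm
  have a2 : (sh m j' : ℝ) + 1 ≤ m := by exact_mod_cast sh_lt m j' hm
  have b1 : (1 : ℝ) ≤ sh m j := by exact_mod_cast sh_pos m j
  have b2 : (1 : ℝ) ≤ sh m j' := by exact_mod_cast sh_pos m j'
  have h3 : (0 : ℝ) ≤ m := by positivity
  rcases Nat.lt_trichotomy j j' with h0 | h0 | h0
  · have : (j : ℝ) + 1 ≤ j' := by exact_mod_cast h0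
    nlinarith
  · exact h0
  · have : (j' : ℝ) + 1 ≤ j := by exact_mod_cast h0
    nlinarith

theorem be_bounds {m t : ℕ} (hm : 2 ≤ m) : be m t < 2 * m ∧ be m t ≠ 0 ∧ be m t ≠ m := by
  have h1 := sh_pos m (t / 2)
  have h2 := sh_lt m (t / 2) hm
  unfold be
  split_ifs <;> omega

theorem pa_mem {m i : ℕ} (h : i < m) : pa m i ∈ conf m := mem_conf.2 (Or.inl ⟨i, h, rfl⟩)

theorem pb_mem {m w : ℕ} (h : w < 2 * m ∧ w ≠ 0 ∧ w ≠ m) : pb w ∈ conf m :=
  mem_conf.2 (Or.inr (Or.inl ⟨w, h.1, h.2.1, h.2.2, rfl⟩))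

theorem pc_mem {m j : ℕ} (h : j < m) : pc m j ∈ conf m := mem_conf.2 (Or.inr (Or.inr ⟨j, h, rfl⟩))

theorem Tr_sub {m t : ℕ} (hm : 2 ≤ m) (ht : t < 2 * m - 1) : Tr m t ⊆ conf m := by
  intro p hp
  rcases mem_Tr.1 hp with rfl | rfl | rfl
  · exact pa_mem (by omega)
  · exact pb_mem (be_bounds hm)
  · exact pc_mem (by omega)

theorem Tr_coll {m t : ℕ} :
    det3 (pa m ((t + 1) / 2)) (pb (be m t)) (pc m (t / 2)) = 0 := by
  unfold det3 pa pb pc be
  simp only
  split_ifs with h
  · have h1 : (t + 1) / 2 = t / 2 := by omega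
    rw [h1]; ring
  · have h1 : (t + 1) / 2 = t / 2 + 1 := by omega
    rw [h1]; push_cast; ring

theorem Tr_classify {m : ℕ} (hm : 2 ≤ m) {p q r : ℝ × ℝ} (hp : p ∈ conf m) (hq : q ∈ conf m)
    (hr : r ∈ conf m) (hp0 : p.2 = 0) (hq1 : q.2 = 1) (hr2 : r.2 = 2) (h : det3 p q r = 0) :
    ∃ t < 2 * m - 1, ∀ x, x ∈ Tr m t ↔ x = p ∨ x = q ∨ x = r := by
  obtain ⟨i, hi, rfl⟩ := conf_y0 hp hp0
  obtain ⟨w, hw1, hw2, hw3, rfl⟩ := conf_y1 hq hq1
  obtain ⟨j, hj, rfl⟩ := conf_y2 hr hr2
  have e : (w : ℝ) = m * i - m * j + sh m j := by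
    unfold det3 pa pb pc at h
    simp only at h
    linarith
  have w1 : (1 : ℝ) ≤ w := by exact_mod_cast Nat.one_le_iff_ne_zero.2 hw2
  have w2 : (w : ℝ) ≤ 2 * m := by exact_mod_cast hw1.le
  have e3 := diff_lower m i j hm (by linarith)
  have e4 := diff_upper m i j (by linarith)
  rcases Nat.lt_or_eq_of_le e3 with h1 | h1
  · have h2 : i = j + 1 := by omega
    subst h2
    refine ⟨2 * j + 1, by omega, fun x => ?_⟩
    have h3 : w = be m (2 * j + 1) := by
      have h4 : (2 * j + 1) / 2 = j := by omega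
      have h5 : ¬ (2 * j + 1) % 2 = 0 := by omega
      unfold be
      rw [if_neg h5, h4]
      have : (w : ℝ) = ((m + sh m j : ℕ) : ℝ) := by
        rw [e]; push_cast; ring
      exact_mod_cast this
    have h4 : (2 * j + 1) / 2 = j := by omega
    have h5 : (2 * j + 1 + 1) / 2 = j + 1 := by omega
    rw [mem_Tr, ← h3, h4, h5]
  · subst h1
    refine ⟨2 * j, by omega, fun x => ?_⟩
    have h3 : w = be m (2 * j) := by
      have h4 : (2 * j) / 2 = j := by omega
      have h5 : (2 * j) % 2 = 0 := by omega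
      unfold be
      rw [if_pos h5, h4]
      have : (w : ℝ) = ((sh m j : ℕ) : ℝ) := by
        rw [e]; ring
      exact_mod_cast this
    have h4 : (2 * j) / 2 = j := by omega
    have h5 : (2 * j + 1) / 2 = j := by omega
    rw [mem_Tr, ← h3, h4, h5]

theorem Tr_of_distinct {m : ℕ} (hm : 2 ≤ m) {p q r : ℝ × ℝ} (hp : p ∈ conf m) (hq : q ∈ conf m)
    (hr : r ∈ conf m) (hpq : p.2 ≠ q.2) (hpr : p.2 ≠ r.2) (hqr : q.2 ≠ r.2)
    (h : det3 p q r = 0) :
    ∃ t < 2 * m - 1, ∀ x, x ∈ Tr m t ↔ x = p ∨ x = q ∨ x = r := by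
  have hrot : det3 q r p = 0 := by rw [det3_rot]; exact h
  have hrot2 : det3 r p q = 0 := by rw [det3_rot]; exact hrot
  have hs : det3 q p r = 0 := by rw [det3_swap, h, neg_zero]
  have hs2 : det3 p r q = 0 := by rw [det3_rot]; exact hs
  have hs3 : det3 r q p = 0 := by rw [det3_rot]; exact hs2
  rcases conf_y hp with h1 | h1 | h1
  · rcases conf_y hq with h2 | h2 | h2
    · exact absurd (h1.trans h2.symm) hpq
    · rcases conf_y hr with h3 | h3 | h3
      · exact absurd (h1.trans h3.symm) hpr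
      · exact absurd (h2.trans h3.symm) hqr
      · exact Tr_classify hm hp hq hr h1 h2 h3 h
    · rcases conf_y hr with h3 | h3 | h3
      · exact absurd (h1.trans h3.symm) hpr
      · obtain ⟨t, ht, ht2⟩ := Tr_classify hm hp hr hq h1 h3 h2 hs2
        exact ⟨t, ht, fun x => (ht2 x).trans (by tauto)⟩
      · exact absurd (h2.trans h3.symm) hqr
  · rcases conf_y hq with h2 | h2 | h2
    · rcases conf_y hr with h3 | h3 | h3
      · exact absurd (h2.trans h3.symm) hqr
      · exact absurd (h1.trans h3.symm) hpr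
      · obtain ⟨t, ht, ht2⟩ := Tr_classify hm hq hp hr h2 h1 h3 hs
        exact ⟨t, ht, fun x => (ht2 x).trans (by tauto)⟩
    · exact absurd (h1.trans h2.symm) hpq
    · rcases conf_y hr with h3 | h3 | h3
      · obtain ⟨t, ht, ht2⟩ := Tr_classify hm hr hp hq h3 h1 h2 hrot2
        exact ⟨t, ht, fun x => (ht2 x).trans (by tauto)⟩
      · exact absurd (h1.trans h3.symm) hpr
      · exact absurd (h2.trans h3.symm) hqr
  · rcases conf_y hq with h2 | h2 | h2
    · rcases conf_y hr with h3 | h3 | h3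
      · exact absurd (h2.trans h3.symm) hqr
      · obtain ⟨t, ht, ht2⟩ := Tr_classify hm hq hr hp h2 h3 h1 hrot
        exact ⟨t, ht, fun x => (ht2 x).trans (by tauto)⟩
      · exact absurd (h1.trans h3.symm) hpr
    · rcases conf_y hr with h3 | h3 | h3
      · obtain ⟨t, ht, ht2⟩ := Tr_classify hm hr hq hp h3 h2 h1 hs3
        exact ⟨t, ht, fun x => (ht2 x).trans (by tauto)⟩
      · exact absurd (h2.trans h3.symm) hqr
      · exact absurd (h1.trans h3.symm) hpr
    · exact absurd (h1.trans h2.symm) hpq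

/-- Two different transversals which share a point are cyclically adjacent. -/
theorem adj_of_share {m t t' : ℕ} (hm : 2 ≤ m) (ht : t < 2 * m - 1) (ht' : t' < 2 * m - 1)
    (hne : t ≠ t') {p : ℝ × ℝ} (hp : p ∈ Tr m t) (hp' : p ∈ Tr m t') :
    t' = (t + 1) % (2 * m - 1) ∨ t = (t' + 1) % (2 * m - 1) := by
  have key : t' = t + 1 ∨ t = t' + 1 ∨ (t = 0 ∧ t' = 2 * m - 2) ∨ (t = 2 * m - 2 ∧ t' = 0) := by
    rcases mem_Tr.1 hp with rfl | rfl | rfl
    · rcases mem_Tr.1 hp' with h | h | h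
      · have := pa_inj (by omega) h
        omega
      · have := congrArg Prod.snd h
        simp [pa, pb] at this
      · have := congrArg Prod.snd h
        simp [pa, pc] at this
    · rcases mem_Tr.1 hp' with h | h | h
      · have := congrArg Prod.snd h
        simp [pa, pb] at this
      · have := pb_inj h
        have h1 := sh_lt m (t / 2) hm
        have h2 := sh_lt m (t' / 2) hm
        unfold be sh at *
        split_ifs at * <;> omega
      · have := congrArg Prod.snd h
        simp [pb, pc] at this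
    · rcases mem_Tr.1 hp' with h | h | h
      · have := congrArg Prod.snd h
        simp [pa, pc] at this
      · have := congrArg Prod.snd h
        simp [pb, pc] at this
      · have := pc_inj hm h
        omega
  rcases key with h | h | ⟨h1, h2⟩ | ⟨h1, h2⟩
  · left; rw [Nat.mod_eq_of_lt (by omega)]; exact h
  · right; rw [Nat.mod_eq_of_lt (by omega)]; exact h
  · right
    rw [h2, h1, show 2 * m - 2 + 1 = 2 * m - 1 by omega, Nat.mod_self]
  · left
    rw [h2, h1, show 2 * m - 2 + 1 = 2 * m - 1 by omega, Nat.mod_self]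

/-- Cyclically adjacent transversals share a point. -/
theorem share_of_adj {n t : ℕ} (hn : 2 ≤ n) (ht : t < 2 * n - 1) :
    ∃ p, p ∈ Tr n t ∧ p ∈ Tr n ((t + 1) % (2 * n - 1)) := by
  by_cases h : t + 1 < 2 * n - 1
  · rw [Nat.mod_eq_of_lt h]
    rcases Nat.even_or_odd' t with ⟨k, rfl | rfl⟩
    · refine ⟨pc n k, mem_Tr.2 (Or.inr (Or.inr ?_)), mem_Tr.2 (Or.inr (Or.inr ?_))⟩ <;>
        congr 1 <;> omega
    · refine ⟨pa n (k + 1), mem_Tr.2 (Or.inl ?_), mem_Tr.2 (Or.inl ?_)⟩ <;>
        congr 1 <;> omega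
  · have h1 : t = 2 * n - 2 := by omega
    have h2 : t + 1 = 2 * n - 1 := by omega
    rw [h2, Nat.mod_self, h1]
    refine ⟨pb 1, mem_Tr.2 (Or.inr (Or.inl ?_)), mem_Tr.2 (Or.inr (Or.inl ?_))⟩
    · congr 1
      unfold be sh
      have h3 : (2 * n - 2) % 2 = 0 := by omega
      have h4 : (2 * n - 2) / 2 = n - 1 := by omega
      rw [if_pos h3, h4, if_neg (by omega)]
    · congr 1
      unfold be sh
      rw [if_pos (by norm_num), if_pos (by omega)]

theorem Tr_inj {n t t' : ℕ} (hn : 2 ≤ n) (h : Tr n t = Tr n t') : t = t' := by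
  have h1 : pa n ((t + 1) / 2) ∈ Tr n t' := by
    rw [← h]; exact mem_Tr.2 (Or.inl rfl)
  have h2 : pc n (t / 2) ∈ Tr n t' := by
    rw [← h]; exact mem_Tr.2 (Or.inr (Or.inr rfl))
  have e1 : (t + 1) / 2 = (t' + 1) / 2 := by
    rcases mem_Tr.1 h1 with h | h | h
    · exact pa_inj (by omega) h
    · have := congrArg Prod.snd h
      simp [pa, pb] at this
    · have := congrArg Prod.snd h
      simp [pa, pc] at this
  have e2 : t / 2 = t' / 2 := by
    rcases mem_Tr.1 h2 with h | h | h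
    · have := congrArg Prod.snd h
      simp [pa, pc] at this
    · have := congrArg Prod.snd h
      simp [pb, pc] at this
    · exact pc_inj hn h
  omega

theorem det3_swap23 (p q r : ℝ × ℝ) : det3 p r q = - det3 p q r := by
  unfold det3; ring

theorem horiz {p q r : ℝ × ℝ} (hpq : p ≠ q) (hy : p.2 = q.2) (h : det3 p q r = 0) :
    r.2 = p.2 := by
  unfold det3 at h
  rw [hy, sub_self, zero_mul, sub_zero] at h
  rcases mul_eq_zero.1 h with h1 | h1
  · exact absurd (Prod.ext (by linarith) hy) hpq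
  · rw [hy]; linarith

theorem four {m : ℕ} {p q r s : ℝ × ℝ} (hp : p ∈ conf m) (hq : q ∈ conf m) (hr : r ∈ conf m)
    (hs : s ∈ conf m) (npq : p ≠ q) (npr : p ≠ r) (nps : p ≠ s) (nqr : q ≠ r) (nqs : q ≠ s)
    (nrs : r ≠ s) (h1 : det3 p q r = 0) (h2 : det3 p q s = 0) (h3 : det3 p r s = 0)
    (h4 : det3 q r s = 0) : p.2 = q.2 := by
  by_contra hpq
  have hpr : p.2 ≠ r.2 := fun h => hpq (horiz npr h (by rw [det3_swap23, h1, neg_zero])).symm
  have hps : p.2 ≠ s.2 := fun h => hpq (horiz nps h (by rw [det3_swap23, h2, neg_zero])).symm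
  have hqr : q.2 ≠ r.2 := fun h => hpq (horiz nqr h (by rw [det3_rot, h1]))
  have hqs : q.2 ≠ s.2 := fun h => hpq (horiz nqs h (by rw [det3_rot, h2]))
  have hrs : r.2 ≠ s.2 := fun h => hpr (horiz nrs h (by rw [det3_rot, h3]))
  rcases conf_y hp with a | a | a <;> rcases conf_y hq with b | b | b <;>
    first
      | exact hpq (a.trans b.symm)
      | (rcases conf_y hr with c | c | c <;>
          first
            | exact hpr (a.trans c.symm)
            | exact hqr (b.trans c.symm)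
            | (rcases conf_y hs with d | d | d <;>
                first
                  | exact hps (a.trans d.symm)
                  | exact hqs (b.trans d.symm)
                  | exact hrs (c.trans d.symm)))

/-- Each level has two more points. -/
theorem two_more {n : ℕ} (hn : 4 ≤ n) {p q : ℝ × ℝ} (hp : p ∈ conf n)
    (hpq : p.2 = q.2) : ∃ r ∈ conf n, ∃ s ∈ conf n, r.2 = p.2 ∧ s.2 = p.2 ∧ r ≠ s ∧ p ≠ r ∧
      p ≠ s ∧ q ≠ r ∧ q ≠ s := by
  classical
  have hcard : 4 ≤ ((conf n).filter (fun x => x.2 = p.2)).card := by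
    rcases mem_conf.1 hp with ⟨i, hi, rfl⟩ | ⟨w, hw1, hw2, hw3, rfl⟩ | ⟨j, hj, rfl⟩
    · have h1 : ((Finset.range 4).image (pa n)) ⊆ (conf n).filter (fun x => x.2 = (pa n i).2) := by
        intro x hx
        obtain ⟨k, hk, rfl⟩ := Finset.mem_image.1 hx
        exact Finset.mem_filter.2 ⟨pa_mem (by have := Finset.mem_range.1 hk; omega), rfl⟩
      refine le_trans ?_ (Finset.card_le_card h1)
      rw [Finset.card_image_of_injective _ (fun a b h => pa_inj (by omega) h)]
      simp
    · have h1 : (({1, 2, 3, n + 1} : Finset ℕ).image pb) ⊆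
          (conf n).filter (fun x => x.2 = (pb w).2) := by
        intro x hx
        obtain ⟨k, hk, rfl⟩ := Finset.mem_image.1 hx
        refine Finset.mem_filter.2 ⟨pb_mem ?_, rfl⟩
        simp only [Finset.mem_insert, Finset.mem_singleton] at hk
        omega
      refine le_trans ?_ (Finset.card_le_card h1)
      rw [Finset.card_image_of_injective _ (fun a b h => pb_inj h)]
      rw [Finset.card_insert_of_notMem, Finset.card_insert_of_notMem,
        Finset.card_insert_of_notMem, Finset.card_singleton]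
      all_goals (simp; try omega)
    · have h1 : ((Finset.range 4).image (pc n)) ⊆ (conf n).filter (fun x => x.2 = (pc n j).2) := by
        intro x hx
        obtain ⟨k, hk, rfl⟩ := Finset.mem_image.1 hx
        exact Finset.mem_filter.2 ⟨pc_mem (by have := Finset.mem_range.1 hk; omega), rfl⟩
      refine le_trans ?_ (Finset.card_le_card h1)
      rw [Finset.card_image_of_injective _ (fun a b h => pc_inj (by omega) h)]
      simp
  have h2 : 1 < ((((conf n).filter (fun x => x.2 = p.2)).erase p).erase q).card := by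
    have a1 := Finset.pred_card_le_card_erase (s := (conf n).filter (fun x => x.2 = p.2)) (a := p)
    have a2 := Finset.pred_card_le_card_erase
      (s := ((conf n).filter (fun x => x.2 = p.2)).erase p) (a := q)
    omega
  obtain ⟨r, hr, s, hs, hrs⟩ := Finset.one_lt_card.1 h2
  obtain ⟨r1, hr⟩ := Finset.mem_erase.1 hr
  obtain ⟨r2, hr⟩ := Finset.mem_erase.1 hr
  obtain ⟨r3, r4⟩ := Finset.mem_filter.1 hr
  obtain ⟨s1, hs⟩ := Finset.mem_erase.1 hs
  obtain ⟨s2, hs⟩ := Finset.mem_erase.1 hs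
  obtain ⟨s3, s4⟩ := Finset.mem_filter.1 hs
  exact ⟨r, r3, s, s3, r4, s4, hrs, r2.symm, s2.symm, r1.symm, s1.symm⟩

theorem det3_level {p q r : ℝ × ℝ} (h1 : q.2 = p.2) (h2 : r.2 = p.2) : det3 p q r = 0 := by
  unfold det3
  rw [h1, h2]; ring

theorem embed_eq (n m : ℕ) (hn : 4 ≤ n) (hm : 4 ≤ m) (h : Embeds (conf n) (conf m)) : n = m := by
  classical
  obtain ⟨f, hinj, hmem, hor⟩ := h
  have hcol : ∀ p ∈ conf n, ∀ q ∈ conf n, ∀ r ∈ conf n,
      (det3 (f p) (f q) (f r) = 0 ↔ det3 p q r = 0) := by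
    intro p hp q hq r hr
    rw [← orient_eq_zero, hor p hp q hq r hr, orient_eq_zero]
  have hne : ∀ p ∈ conf n, ∀ q ∈ conf n, p ≠ q → f p ≠ f q := by
    intro p hp q hq hpq h
    exact hpq (hinj hp hq h)
  -- levels go to levels
  have hlev : ∀ p ∈ conf n, ∀ q ∈ conf n, p.2 = q.2 → (f p).2 = (f q).2 := by
    intro p hp q hq hpq
    by_cases he : p = q
    · rw [he]
    obtain ⟨r, hr, s, hs, h1, h2, h3, h4, h5, h6, h7⟩ := two_more hn hp hpq
    exact four (hmem p hp) (hmem q hq) (hmem r hr) (hmem s hs) (hne _ hp _ hq he)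
      (hne _ hp _ hr h4) (hne _ hp _ hs h5) (hne _ hq _ hr h6) (hne _ hq _ hs h7)
      (hne _ hr _ hs h3)
      ((hcol _ hp _ hq _ hr).2 (det3_level hpq.symm h1))
      ((hcol _ hp _ hq _ hs).2 (det3_level hpq.symm h2))
      ((hcol _ hp _ hr _ hs).2 (det3_level h1 h2))
      ((hcol _ hq _ hr _ hs).2 (det3_level (h1.trans hpq) (h2.trans hpq)))
  have hbad : ∀ y : ℝ, ¬ ∀ p ∈ conf n, (f p).2 = y := by
    intro y hy
    have h1 : pa n 0 ∈ conf n := pa_mem (by omega)
    have h2 : pa n 1 ∈ conf n := pa_mem (by omega)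
    have h3 : pc n 0 ∈ conf n := pc_mem (by omega)
    have h4 := (hcol _ h1 _ h2 _ h3).1 (det3_level ((hy _ h2).trans (hy _ h1).symm)
      ((hy _ h3).trans (hy _ h1).symm))
    unfold det3 pa pc at h4
    simp at h4
    omega
  have htriple : ∀ a ∈ conf n, ∀ b ∈ conf n, ∀ c ∈ conf n, a.2 = 0 → b.2 = 1 → c.2 = 2 →
      det3 a b c = 0 → (f a).2 ≠ (f b).2 ∧ (f a).2 ≠ (f c).2 ∧ (f b).2 ≠ (f c).2 := by
    intro a ha b hb c hc ha0 hb1 hc2 hd
    have hab : a ≠ b := fun h => by
      rw [h, hb1] at ha0; norm_num at ha0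
    have hac : a ≠ c := fun h => by
      rw [h, hc2] at ha0; norm_num at ha0
    have hbc : b ≠ c := fun h => by
      rw [h, hc2] at hb1; norm_num at hb1
    have hd' := (hcol _ ha _ hb _ hc).2 hd
    have key : ¬ ((f b).2 = (f a).2 ∧ (f c).2 = (f a).2) := by
      rintro ⟨h1, h2⟩
      apply hbad (f a).2
      intro p hp
      rcases conf_y hp with h | h | h
      · exact hlev p hp a ha (h.trans ha0.symm)
      · exact (hlev p hp b hb (h.trans hb1.symm)).trans h1
      · exact (hlev p hp c hc (h.trans hc2.symm)).trans h2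
    refine ⟨fun h => key ⟨h.symm, horiz (hne _ ha _ hb hab) h hd'⟩, fun h => ?_, fun h => ?_⟩
    · have h1 := horiz (hne _ ha _ hc hac) h
        (show det3 (f a) (f c) (f b) = 0 by rw [det3_swap23, hd', neg_zero])
      exact key ⟨h1, h.symm⟩
    · have h1 := horiz (hne _ hb _ hc hbc) h
        (show det3 (f b) (f c) (f a) = 0 by rw [det3_rot, hd'])
      exact key ⟨h1.symm, by rw [← h, h1]⟩
  -- transversals go to transversals
  have hg : ∀ t, t < 2 * n - 1 → ∃ s, s < 2 * m - 1 ∧ ∀ x, x ∈ Tr m s ↔ ∃ p ∈ Tr n t, f p = x := by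
    intro t ht
    have ha : pa n ((t + 1) / 2) ∈ conf n := pa_mem (by omega)
    have hb : pb (be n t) ∈ conf n := pb_mem (be_bounds (by omega))
    have hc : pc n (t / 2) ∈ conf n := pc_mem (by omega)
    have hd := Tr_coll (m := n) (t := t)
    obtain ⟨h1, h2, h3⟩ := htriple _ ha _ hb _ hc rfl rfl rfl hd
    obtain ⟨s, hs, hs2⟩ := Tr_of_distinct (by omega) (hmem _ ha) (hmem _ hb) (hmem _ hc) h1 h2 h3
      ((hcol _ ha _ hb _ hc).2 hd)
    refine ⟨s, hs, fun x => (hs2 x).trans ?_⟩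
    constructor
    · rintro (rfl | rfl | rfl)
      · exact ⟨_, mem_Tr.2 (Or.inl rfl), rfl⟩
      · exact ⟨_, mem_Tr.2 (Or.inr (Or.inl rfl)), rfl⟩
      · exact ⟨_, mem_Tr.2 (Or.inr (Or.inr rfl)), rfl⟩
    · rintro ⟨p, hp, rfl⟩
      rcases mem_Tr.1 hp with rfl | rfl | rfl
      · exact Or.inl rfl
      · exact Or.inr (Or.inl rfl)
      · exact Or.inr (Or.inr rfl)
  choose! g hg1 hg2 using hg
  have hginj : ∀ t, t < 2 * n - 1 → ∀ t', t' < 2 * n - 1 → g t = g t' → t = t' := by
    intro t ht t' ht' hgt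
    apply Tr_inj (show 2 ≤ n by omega)
    have hsub : ∀ t, t < 2 * n - 1 → ∀ t', t' < 2 * n - 1 → g t = g t' → Tr n t ⊆ Tr n t' := by
      intro t ht t' ht' hgt p hp
      have h1 : f p ∈ Tr m (g t) := (hg2 t ht _).2 ⟨p, hp, rfl⟩
      rw [hgt] at h1
      obtain ⟨q, hq, hq2⟩ := (hg2 t' ht' _).1 h1
      have h2 : q = p := hinj (Tr_sub (by omega) ht' hq) (Tr_sub (by omega) ht hp) hq2
      rw [← h2]; exact hq
    exact Finset.Subset.antisymm (hsub t ht t' ht' hgt) (hsub t' ht' t ht hgt.symm)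
  have hadj : ∀ t, t < 2 * n - 1 →
      g ((t + 1) % (2 * n - 1)) = (g t + 1) % (2 * m - 1) ∨
      g t = (g ((t + 1) % (2 * n - 1)) + 1) % (2 * m - 1) := by
    intro t ht
    have ht' : (t + 1) % (2 * n - 1) < 2 * n - 1 := Nat.mod_lt _ (by omega)
    have hne' : t ≠ (t + 1) % (2 * n - 1) := by
      by_cases h : t + 1 < 2 * n - 1
      · rw [Nat.mod_eq_of_lt h]; omega
      · rw [show t + 1 = 2 * n - 1 by omega, Nat.mod_self]; omega
    obtain ⟨p, hp, hp'⟩ := share_of_adj (show 2 ≤ n by omega) ht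
    exact adj_of_share (by omega) (hg1 t ht) (hg1 _ ht') (fun h => hne' (hginj _ ht _ ht' h))
      ((hg2 t ht _).2 ⟨p, hp, rfl⟩) ((hg2 _ ht' _).2 ⟨p, hp', rfl⟩)
  set X : Finset ℕ := (Finset.range (2 * n - 1)).image g with hX
  have hXsub : ∀ x ∈ X, x < 2 * m - 1 := by
    intro x hx
    obtain ⟨t, ht, rfl⟩ := Finset.mem_image.1 hx
    exact hg1 t (Finset.mem_range.1 ht)
  have hmodinj : ∀ x y N : ℕ, x < N → y < N → (x + 1) % N = (y + 1) % N → x = y := by
    intro x y N hx hy h
    by_cases h1 : x + 1 < N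
    · rw [Nat.mod_eq_of_lt h1] at h
      by_cases h2 : y + 1 < N
      · rw [Nat.mod_eq_of_lt h2] at h
        omega
      · rw [show y + 1 = N by omega, Nat.mod_self] at h
        omega
    · rw [show x + 1 = N by omega, Nat.mod_self] at h
      by_cases h2 : y + 1 < N
      · rw [Nat.mod_eq_of_lt h2] at h
        omega
      · omega
  have hclosed : ∀ x ∈ X, (x + 1) % (2 * m - 1) ∈ X := by
    intro x hx
    obtain ⟨t, ht, rfl⟩ := Finset.mem_image.1 hx
    have ht := Finset.mem_range.1 ht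
    have ht' : (t + 1) % (2 * n - 1) < 2 * n - 1 := Nat.mod_lt _ (by omega)
    obtain ⟨t'', ht'', hprev⟩ : ∃ t'', t'' < 2 * n - 1 ∧ (t'' + 1) % (2 * n - 1) = t := by
      by_cases h : t = 0
      · exact ⟨2 * n - 2, by omega, by rw [show 2 * n - 2 + 1 = 2 * n - 1 by omega,
          Nat.mod_self, h]⟩
      · exact ⟨t - 1, by omega, by rw [show t - 1 + 1 = t by omega, Nat.mod_eq_of_lt ht]⟩
    rcases hadj t ht with h | h
    · rw [← h]
      exact Finset.mem_image.2 ⟨_, Finset.mem_range.2 ht', rfl⟩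
    · have h2 := hadj t'' ht''
      rw [hprev] at h2
      rcases h2 with h2 | h2
      · exfalso
        have h3 := hmodinj _ _ _ (hg1 _ ht') (hg1 _ ht'') (h.symm.trans h2)
        have h4 := hginj _ ht' _ ht'' h3
        -- (t + 1) % N = t'' and (t'' + 1) % N = t
        rw [← h4] at hprev
        by_cases h5 : t + 1 < 2 * n - 1
        · rw [Nat.mod_eq_of_lt h5] at hprev
          by_cases h6 : t + 1 + 1 < 2 * n - 1
          · rw [Nat.mod_eq_of_lt h6] at hprev
            omega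
          · rw [show t + 1 + 1 = 2 * n - 1 by omega, Nat.mod_self] at hprev
            omega
        · rw [show t + 1 = 2 * n - 1 by omega, Nat.mod_self, Nat.mod_eq_of_lt (by omega)] at hprev
          omega
      · rw [← h2]
        exact Finset.mem_image.2 ⟨_, Finset.mem_range.2 ht'', rfl⟩
  have hall : ∀ k, (g 0 + k) % (2 * m - 1) ∈ X := by
    intro k
    induction k with
    | zero =>
      rw [Nat.add_zero, Nat.mod_eq_of_lt (hg1 0 (by omega))]
      exact Finset.mem_image.2 ⟨0, Finset.mem_range.2 (by omega), rfl⟩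
    | succ k ih =>
      have := hclosed _ ih
      rwa [Nat.mod_add_mod] at this
  have hXeq : X = Finset.range (2 * m - 1) := by
    ext y
    constructor
    · intro hy
      exact Finset.mem_range.2 (hXsub y hy)
    · intro hy
      have hy := Finset.mem_range.1 hy
      have h0 := hg1 0 (by omega)
      have := hall (y + (2 * m - 1) - g 0)
      rw [show g 0 + (y + (2 * m - 1) - g 0) = y + (2 * m - 1) by omega, Nat.add_mod_right,
        Nat.mod_eq_of_lt hy] at this
      exact this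
  have hcard : X.card = 2 * n - 1 := by
    rw [hX, Finset.card_image_of_injOn, Finset.card_range]
    intro a ha b hb hab
    exact hginj a (Finset.mem_range.1 (Finset.mem_coe.1 ha)) b
      (Finset.mem_range.1 (Finset.mem_coe.1 hb)) hab
  rw [hXeq, Finset.card_range] at hcard
  omega

/-- **The class of configurations with no six points in convex position is not
well-quasi-ordered.** -/
theorem antichain : ∃ S : ℕ → Finset (ℝ × ℝ),
    (∀ i, ∀ T ⊆ S i, ConvexPos T → T.card < 6) ∧ ∀ i j, i ≠ j → ¬ Embeds (S i) (S j) := by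
  refine ⟨fun i => conf (i + 4), fun i T hT hT' => no_hexagon (i + 4) (by omega) T hT hT', ?_⟩
  intro i j hij h
  have := embed_eq (i + 4) (j + 4) (by omega) (by omega) h
  omega

end Pool.Agent.Q235.Cvx
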