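import Pool.Agent.Q235.Wqo.Classify
import Mathlib.Analysis.Convex.Extreme
import Mathlib.Analysis.Convex.Hull
import Mathlib.Data.Real.Basic
import Mathlib.Algebra.Order.Ring.Int
import Mathlib.Tactic.Push

/-!
# An antichain of configurations with no six points in convex position

`conf m` lies on the three lines `y = 0, 1, 2`.  Its transversal collinear triples form a cycle of
length `2 m - 1`.
-/

namespace Pool.Agent.Q235.Cvx

open Pool.Agent.Q235.Wqo

/-- `T` is in convex position: no three points on a line, every point a vertex (extreme point) of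
the convex hull. -/
def ConvexPos (T : Finset (ℝ × ℝ)) : Prop :=
  Gen T ∧ ∀ p ∈ T, p ∈ Set.extremePoints ℝ (convexHull ℝ (T : Set (ℝ × ℝ)))

/-- small shifts -/
def sh (m i : ℕ) : ℕ := if i + 1 < m then i + 1 else 1

theorem sh_pos (m i : ℕ) : 1 ≤ sh m i := by
  unfold sh; split <;> omega

theorem sh_lt (m i : ℕ) (hm : 2 ≤ m) : sh m i < m := by
  unfold sh; split <;> omega

/-- points on the line `y = 0` -/
noncomputable def pa (m i : ℕ) : ℝ × ℝ := (2 * m * i, 0)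

/-- points on the line `y = 1` -/
noncomputable def pb (w : ℕ) : ℝ × ℝ := (w, 1)

/-- points on the line `y = 2` -/
noncomputable def pc (m j : ℕ) : ℝ × ℝ := (2 * sh m j - 2 * m * j, 2)

/-- The configuration. -/
noncomputable def conf (m : ℕ) : Finset (ℝ × ℝ) :=
  (Finset.range m).image (pa m) ∪
    ((Finset.range (2 * m)).filter (fun w => w ≠ 0 ∧ w ≠ m)).image pb ∪
    (Finset.range m).image (pc m)

theorem mem_conf {m : ℕ} {p : ℝ × ℝ} : p ∈ conf m ↔
    (∃ i < m, pa m i = p) ∨ (∃ w, w < 2 * m ∧ w ≠ 0 ∧ w ≠ m ∧ pb w = p) ∨ ∃ j < m, pc m j = p := by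
  unfold conf
  simp only [Finset.mem_union, Finset.mem_image, Finset.mem_range, Finset.mem_filter]
  constructor
  · rintro ((⟨i, h1, h2⟩ | ⟨w, ⟨h1, h2, h3⟩, h4⟩) | ⟨j, h1, h2⟩)
    · exact Or.inl ⟨i, h1, h2⟩
    · exact Or.inr (Or.inl ⟨w, h1, h2, h3, h4⟩)
    · exact Or.inr (Or.inr ⟨j, h1, h2⟩)
  · rintro (⟨i, h1, h2⟩ | ⟨w, h1, h2, h3, h4⟩ | ⟨j, h1, h2⟩)
    · exact Or.inl (Or.inl ⟨i, h1, h2⟩)
    · exact Or.inl (Or.inr ⟨w, ⟨h1, h2, h3⟩, h4⟩)
    · exact Or.inr ⟨j, h1, h2⟩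

theorem conf_y {m : ℕ} {p : ℝ × ℝ} (h : p ∈ conf m) : p.2 = 0 ∨ p.2 = 1 ∨ p.2 = 2 := by
  rcases mem_conf.1 h with ⟨i, -, rfl⟩ | ⟨w, -, -, -, rfl⟩ | ⟨j, -, rfl⟩
  · left; rfl
  · right; left; rfl
  · right; right; rfl

theorem conf_y0 {m : ℕ} {p : ℝ × ℝ} (h : p ∈ conf m) (h0 : p.2 = 0) : ∃ i < m, pa m i = p := by
  rcases mem_conf.1 h with h | ⟨w, -, -, -, rfl⟩ | ⟨j, -, rfl⟩
  · exact h
  · simp [pb] at h0
  · simp [pc] at h0

theorem conf_y1 {m : ℕ} {p : ℝ × ℝ} (h : p ∈ conf m) (h0 : p.2 = 1) :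
    ∃ w, w < 2 * m ∧ w ≠ 0 ∧ w ≠ m ∧ pb w = p := by
  rcases mem_conf.1 h with ⟨i, -, rfl⟩ | h | ⟨j, -, rfl⟩
  · simp [pa] at h0
  · exact h
  · simp [pc] at h0

theorem conf_y2 {m : ℕ} {p : ℝ × ℝ} (h : p ∈ conf m) (h0 : p.2 = 2) : ∃ j < m, pc m j = p := by
  rcases mem_conf.1 h with ⟨i, -, rfl⟩ | ⟨w, -, -, -, rfl⟩ | h
  · simp [pa] at h0
  · simp [pb] at h0
  · exact h

/-- the lower bound -/
theorem diff_lower (m i j : ℕ) (hm : 2 ≤ m) (h : (1 : ℝ) ≤ m * i - m * j + sh m j) : j ≤ i := by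
  by_contra hcon
  push Not at hcon
  have h1 : (i : ℝ) + 1 ≤ j := by exact_mod_cast hcon
  have h2 : (sh m j : ℝ) + 1 ≤ m := by exact_mod_cast sh_lt m j hm
  have h3 : (0 : ℝ) ≤ m := by positivity
  nlinarith

theorem diff_upper (m i j : ℕ) (h : (m : ℝ) * i - m * j + sh m j ≤ 2 * m) : i ≤ j + 1 := by
  by_contra hcon
  push Not at hcon
  have h1 : (j : ℝ) + 2 ≤ i := by exact_mod_cast hcon
  have h2 : (1 : ℝ) ≤ sh m j := by exact_mod_cast sh_pos m j
  have h3 : (0 : ℝ) ≤ m := by positivity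
  nlinarith

theorem pc_anti (m j j' : ℕ) (hm : 2 ≤ m) (h : (pc m j).1 < (pc m j').1) : j' < j := by
  by_contra hcon
  push Not at hcon
  unfold pc at h
  simp only at h
  rcases Nat.lt_or_eq_of_le hcon with h0 | h0
  · have h1 : (j : ℝ) + 1 ≤ j' := by exact_mod_cast h0
    have h2 : (sh m j' : ℝ) + 1 ≤ m := by exact_mod_cast sh_lt m j' hm
    have h4 : (1 : ℝ) ≤ sh m j := by exact_mod_cast sh_pos m j
    have h3 : (0 : ℝ) ≤ m := by positivity
    nlinarith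
  · rw [h0] at h
    exact lt_irrefl _ h

theorem pa_mono (m i i' : ℕ) (h : (pa m i).1 < (pa m i').1) : i < i' := by
  by_contra hcon
  push Not at hcon
  unfold pa at h
  simp only at h
  have h1 : (i' : ℝ) ≤ i := by exact_mod_cast hcon
  have h3 : (0 : ℝ) ≤ m := by positivity
  nlinarith

/-- The middle points of a convex hexagon lie to the left and right. -/
theorem left_of (T : Finset (ℝ × ℝ)) (hT : ConvexPos T) (a b b' c : ℝ × ℝ)
    (ha : a ∈ T) (hb : b ∈ T) (hb' : b' ∈ T) (hc : c ∈ T)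
    (ha0 : a.2 = 0) (hb1 : b.2 = 1) (hb1' : b'.2 = 1) (hc2 : c.2 = 2)
    (s : ℝ) (hs : 0 < s * (b'.1 - b.1)) : s * (2 * b.1) < s * (a.1 + c.1) := by
  by_contra hcon
  push Not at hcon
  have hsub := subset_convexHull ℝ (T : Set (ℝ × ℝ))
  have hmid : ((a.1 + c.1) / 2, (1 : ℝ)) ∈ convexHull ℝ (T : Set (ℝ × ℝ)) := by
    have h1 := (convex_convexHull ℝ (T : Set (ℝ × ℝ))) (hsub ha) (hsub hc)
      (show (0 : ℝ) ≤ 1 / 2 by norm_num) (show (0 : ℝ) ≤ 1 / 2 by norm_num) (by norm_num)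
    convert h1 using 1
    ext
    · simp; ring
    · simp [ha0, hc2]
  have hext := (hT.2 b hb).2
  rcases lt_or_eq_of_le hcon with h | h
  · -- `b` is strictly between the midpoint and `b'`
    set t : ℝ := (b.1 - (a.1 + c.1) / 2) / (b'.1 - (a.1 + c.1) / 2) with ht
    have hs2 : 0 < s * (b.1 - (a.1 + c.1) / 2) := by linarith
    have hs3 : 0 < s * (b'.1 - (a.1 + c.1) / 2) := by linarith
    have hs0 : s ≠ 0 := by
      rintro rfl
      simp at hs
    have hd : b'.1 - (a.1 + c.1) / 2 ≠ 0 := by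
      intro h0
      rw [h0, mul_zero] at hs3
      exact lt_irrefl _ hs3
    have ht' : t = (s * (b.1 - (a.1 + c.1) / 2)) / (s * (b'.1 - (a.1 + c.1) / 2)) := by
      rw [ht, mul_div_mul_left _ _ hs0]
    have ht0 : 0 < t := by
      rw [ht']; exact div_pos hs2 hs3
    have ht1 : t < 1 := by
      rw [ht', div_lt_one hs3]; linarith
    have htd : t * (b'.1 - (a.1 + c.1) / 2) = b.1 - (a.1 + c.1) / 2 := div_mul_cancel₀ _ hd
    have hseg : b ∈ openSegment ℝ ((a.1 + c.1) / 2, (1 : ℝ)) b' := by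
      refine ⟨1 - t, t, by linarith, ht0, by ring, ?_⟩
      ext
      · simp only [Prod.fst_add, Prod.smul_fst, smul_eq_mul]
        linarith
      · simp [hb1, hb1']
    have h5 := hext hmid (hsub hb') hseg
    have h6 : (a.1 + c.1) / 2 = b.1 := congrArg Prod.fst h5
    rw [h6, sub_self, mul_zero] at hs2
    exact lt_irrefl _ hs2
  · -- `b` is the midpoint of `a c`
    have hs0 : s ≠ 0 := by
      rintro rfl
      simp at hs
    have h7 : a.1 + c.1 = 2 * b.1 := mul_left_cancel₀ hs0 h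
    have hseg : b ∈ openSegment ℝ a c := by
      refine ⟨1 / 2, 1 / 2, by norm_num, by norm_num, by norm_num, ?_⟩
      ext
      · simp only [Prod.fst_add, Prod.smul_fst, smul_eq_mul]
        linarith
      · simp [ha0, hb1, hc2]
    have h5 := hext (hsub ha) (hsub hc) hseg
    have h6 : a.2 = b.2 := congrArg Prod.snd h5
    rw [ha0, hb1] at h6
    norm_num at h6

theorem level_card (T : Finset (ℝ × ℝ)) (hT : Gen T) (y : ℝ) :
    (T.filter (fun p => p.2 = y)).card ≤ 2 := by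
  classical
  by_contra hcon
  push Not at hcon
  obtain ⟨p, q, r, hp, hq, hr, hpq, hpr, hqr⟩ := Finset.two_lt_card_iff.1 hcon
  obtain ⟨hp1, hp2⟩ := Finset.mem_filter.1 hp
  obtain ⟨hq1, hq2⟩ := Finset.mem_filter.1 hq
  obtain ⟨hr1, hr2⟩ := Finset.mem_filter.1 hr
  apply hT p hp1 q hq1 r hr1 hpq hpr hqr
  rw [orient_eq_zero]
  unfold det3
  rw [hp2, hq2, hr2]
  ring

/-- two points of a level, in increasing order -/
theorem level_pair (T : Finset (ℝ × ℝ)) (y : ℝ) (h : 1 < (T.filter (fun p => p.2 = y)).card) :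
    ∃ p ∈ T, ∃ q ∈ T, p.2 = y ∧ q.2 = y ∧ p.1 < q.1 := by
  classical
  obtain ⟨p, hp, q, hq, hpq⟩ := Finset.one_lt_card.1 h
  obtain ⟨hp1, hp2⟩ := Finset.mem_filter.1 hp
  obtain ⟨hq1, hq2⟩ := Finset.mem_filter.1 hq
  rcases lt_trichotomy p.1 q.1 with h1 | h1 | h1
  · exact ⟨p, hp1, q, hq1, hp2, hq2, h1⟩
  · exact absurd (Prod.ext h1 (hp2.trans hq2.symm)) hpq
  · exact ⟨q, hq1, p, hp1, hq2, hp2, h1⟩

/-- The configurations contain no six points in convex position. -/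
theorem no_hexagon (m : ℕ) (hm : 2 ≤ m) (T : Finset (ℝ × ℝ)) (hTS : T ⊆ conf m)
    (hT : ConvexPos T) : T.card < 6 := by
  classical
  by_contra hcon
  push Not at hcon
  have h0 := level_card T hT.1 0
  have h1 := level_card T hT.1 1
  have h2 := level_card T hT.1 2
  have hsub : T ⊆ T.filter (fun p => p.2 = 0) ∪ (T.filter (fun p => p.2 = 1) ∪
      T.filter (fun p => p.2 = 2)) := by
    intro p hp
    simp only [Finset.mem_union, Finset.mem_filter]
    rcases conf_y (hTS hp) with h | h | h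
    · exact Or.inl ⟨hp, h⟩
    · exact Or.inr (Or.inl ⟨hp, h⟩)
    · exact Or.inr (Or.inr ⟨hp, h⟩)
  have hc := Finset.card_le_card hsub
  have u1 := Finset.card_union_le (T.filter (fun p => p.2 = 0)) (T.filter (fun p => p.2 = 1) ∪
      T.filter (fun p => p.2 = 2))
  have u2 := Finset.card_union_le (T.filter (fun p => p.2 = 1)) (T.filter (fun p => p.2 = 2))
  obtain ⟨a, ha, a', ha', ha0, ha0', haa⟩ := level_pair T 0 (by omega)
  obtain ⟨b, hb, b', hb', hb0, hb0', hbb⟩ := level_pair T 1 (by omega)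
  obtain ⟨c, hc, c', hc', hc0, hc0', hcc⟩ := level_pair T 2 (by omega)
  have k1 := left_of T hT a b b' c ha hb hb' hc ha0 hb0 hb0' hc0 1 (by linarith)
  have k2 := left_of T hT a' b' b c' ha' hb' hb hc' ha0' hb0' hb0 hc0' (-1) (by linarith)
  obtain ⟨i, hi, rfl⟩ := conf_y0 (hTS ha) ha0
  obtain ⟨i', hi', rfl⟩ := conf_y0 (hTS ha') ha0'
  obtain ⟨w, hw1, hw2, hw3, rfl⟩ := conf_y1 (hTS hb) hb0
  obtain ⟨w', hw1', hw2', hw3', rfl⟩ := conf_y1 (hTS hb') hb0'
  obtain ⟨j, hj, rfl⟩ := conf_y2 (hTS hc) hc0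
  obtain ⟨j', hj', rfl⟩ := conf_y2 (hTS hc') hc0'
  have e1 := pa_mono m i i' haa
  have e2 := pc_anti m j j' hm hcc
  simp only [pa, pb, pc] at k1 k2
  have w1 : (1 : ℝ) ≤ w := by exact_mod_cast Nat.one_le_iff_ne_zero.2 hw2
  have w2 : (w' : ℝ) ≤ 2 * m := by exact_mod_cast hw1'.le
  have e3 := diff_lower m i j hm (by linarith)
  have e4 := diff_upper m i' j' (by linarith)
  omega

end Pool.Agent.Q235.Cvx
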